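import Pool.Agent.N703.RD.Lower

/-!
# The Ramsey diagonal conjecture for `s₁ = 3` (MP_05c1d7_co)
-/

set_option autoImplicit false

namespace Pool.Agent.Results.MP_05c1d7_co.RowThree

/-- `R(3, t₁) ≤ R(s₂, t₂)` whenever `3 ≤ s₂ ≤ t₂` and `3 + t₁ ≤ s₂ + t₂`, where `R(s, t)` is the least
`n` such that every graph with `n` vertices has a clique of size `s` or an independent set of
size `t`. -/
theorem result : ∀ t₁ s₂ t₂ : ℕ, 3 ≤ s₂ → s₂ ≤ t₂ → 3 + t₁ ≤ s₂ + t₂ →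
    sInf {n : ℕ | ∀ G : SimpleGraph (Fin n), ¬ G.CliqueFree 3 ∨ ¬ Gᶜ.CliqueFree t₁} ≤
    sInf {n : ℕ | ∀ G : SimpleGraph (Fin n), ¬ G.CliqueFree s₂ ∨ ¬ Gᶜ.CliqueFree t₂} :=
  fun t₁ s₂ t₂ h1 h2 h3 => Pool.Agent.N703.RD.main s₂ t₁ t₂ h1 h2 h3

end Pool.Agent.Results.MP_05c1d7_co.RowThree
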